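import Mathlib
import Pool.Prelude.Def_F_c31e40fa
import Pool.Agent.U256.GD6
import Pool.Agent.U256.RR.H2
import Pool.Agent.U256.RR.NoAttr

set_option autoImplicit false

/-!
# Infinitely renormalizable parameters of arbitrary type: a multiscale inequality

A parameter `c` of the Multibrot set `M_d` (the Mandelbrot set for `d = 2`) has a tower of periods
`p 0 = 1`, `p 1`, `p 2`, … (each a proper divisor of the next) with constants `C k ≥ 1`, if `C k`
bounds the derivative of `f_c^(p k)` at all points `f_c^(n p_k) (0)`. At an infinitely renormalizable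
parameter one takes the periods of renormalization; `C k` is controlled by the geometry of the
renormalization of period `p k`.

(1) For all `k` and `n`, the derivatives of all iterates `f_c^j`, `j < n`, along the whole critical
orbit are at most `Φ = (∏_{j<k} C_j^(p_(j+1)/p_j)) ^ 2 · C_k^(n/p_k)`. So `f_c^n(0)` is at distance at
least `1 / (K n Φ)` from `0`, and the superattracting parameters of period dividing `n` (the centres of
the hyperbolic components, in particular the centres of the copies of `M_d` of period `n` about `c`)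
are at distance at least `1 / (K (n Φ)²)` from `c`.

(2) If the constants are subexponential in the periods for infinitely many `k`, then returns and
superattracting parameters of period `n` are at distance at least `exp (-X n)`, for every `X > 0`, and
the numbers of superattracting parameters in small discs about `c` are accordingly small: no
exceptional set of parameters.

(3) If the constants are bounded, and the ratios `p_(k+1) / p_k` are at most `B (k+1)^a` (bounded type
for `a = 0`), the distances are at least `exp (-A (1 + log n)^(a+1))`, harmonic measure, Green's function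
and the proportion of superattracting parameters in discs are doubly exponentially small in
`(log (1/r))^(1/(a+1))`, and the Caratheodory loop has a correspondingly bad modulus of continuity if
`M_d` is locally connected.

(4) At ALL real infinitely renormalizable parameters, of any type, the constants are bounded, by
`4 d (1 + 8 d)`: we prove the real a priori bounds with this explicit constant. (By the cross ratio
inequality for `x ^ d`, applied to the monotone extensions of `f_c^(s-1)` around the interval of the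
critical value, where the `s`-th interval is the shortest one of the cycle `f_c^i [-a, a]`, and `a` is
the supremum of the `|f_c^(n p_k) (0)|`.) There is no attracting cycle. So (1), (2) hold at all these
parameters, and (3) at those whose ratios of periods grow at most polynomially.
-/

open Filter Topology Set Metric MeasureTheory Complex N62a1eb23

namespace Pool.Agent.Results.MP_b511e9_an.MultiscaleRepulsion

open Pool.Agent.H713R2

/-- The map `z ↦ z ^ d + c`. -/
def f (d : ℕ) (c : ℂ) : ℂ → ℂ := fun z => z ^ d + c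

/-- Periods `p 0 = 1`, `p 1`, `p 2`, … each of which is a proper divisor of the next, and constants
`C k ≥ 1` such that the derivatives of `f_c^(p k)` at the points `f_c^(n p_k) (0)`, `n ≥ 0`, are at most
`C k`. -/
structure Tower (d : ℕ) (c : ℂ) (p : ℕ → ℕ) (C : ℕ → ℝ) : Prop where
  zero : p 0 = 1
  dvd : ∀ k, p k ∣ p (k + 1)
  lt : ∀ k, p k < p (k + 1)
  one_le : ∀ k, 1 ≤ C k
  deriv_le : ∀ k n, ‖deriv ((f d c)^[p k]) ((f d c)^[n * p k] 0)‖ ≤ C k

/-- The number `(∏_{j<k} C_j^(p_(j+1)/p_j)) ^ 2 · C_k^⌊n/p_k⌋`. -/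
noncomputable def Phi (p : ℕ → ℕ) (C : ℕ → ℝ) (k n : ℕ) : ℝ :=
  (∏ j ∈ Finset.range k, C j ^ (p (j + 1) / p j)) ^ 2 * C k ^ (n / p k)

/-- The superattracting parameters `a` of period dividing `n ≥ 1` at distance less than `r` from
`c`. -/
def centres (d n : ℕ) (c : ℂ) (r : ℝ) : Set ℂ := {a | ‖a - c‖ < r ∧ (f d a)^[n] 0 = 0}

/-- The angles `t ∈ (0, 2π]` of the external rays landing at distance less than `r` from `c₀`. -/
def angles (ψ : ℂ → ℂ) (c₀ : ℂ) (r : ℝ) : Set ℝ :=
  {t | t ∈ Ioc 0 (2 * Real.pi) ∧ ∃ ζ ∈ ball c₀ r,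
    Tendsto (fun ρ : ℝ => ψ (ρ * exp (t * I))) (𝓝[>] 1) (𝓝 ζ)}

/-- The harmonic measure (from infinity) of the disc of radius `r`, up to the factor `2π`. -/
noncomputable def harm (ψ : ℂ → ℂ) (c₀ : ℂ) (r : ℝ) : ℝ := (volume (angles ψ c₀ r)).toReal

/-- The maximum over a disc of Green's function of the complement of the Multibrot set: Green's
function is `log ‖w‖` at the point `ψ w`. -/
noncomputable def green (ψ : ℂ → ℂ) (c₀ : ℂ) (r : ℝ) : ℝ :=
  sSup {x | ∃ w : ℂ, 1 < ‖w‖ ∧ ‖ψ w - c₀‖ ≤ r ∧ Real.log ‖w‖ = x}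

/-- `F` is a continuous extension of `ψ` to the unit circle, the Caratheodory loop. -/
def Loop (ψ F : ℂ → ℂ) : Prop := ContinuousOn F {w : ℂ | 1 ≤ ‖w‖} ∧ ∀ w : ℂ, 1 < ‖w‖ → F w = ψ w

/-- The map `x ↦ x ^ d + c` of the real line. -/
def fR (d : ℕ) (c : ℝ) : ℝ → ℝ := fun x => x ^ d + c

/-- The real map `f_c` is infinitely renormalizable with the periods `p 0 = 1`, `p 1`, `p 2`, …: each is
a proper divisor of the next one, and there are numbers `β 0 > β 1 > … > 0` such that for every `k`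
the map `f_c^(p k)` maps the interval `[-β k, β k]` into itself, and any two of the `p k` intervals
`f_c^i [-β k, β k]`, `i < p k`, have at most one point in common. (This exists in the even degrees `d`
only.) -/
def RealPeriods (d : ℕ) (c : ℝ) (p : ℕ → ℕ) : Prop :=
  p 0 = 1 ∧ ∃ β : ℕ → ℝ, ∀ k : ℕ, 0 < p k ∧ p k ∣ p (k + 1) ∧ p k < p (k + 1) ∧
    0 < β k ∧ β (k + 1) < β k ∧
    MapsTo ((fR d c)^[p k]) (Icc (-β k) (β k)) (Icc (-β k) (β k)) ∧
    ∀ i j : ℕ, i < j → j < p k →
      (((fR d c)^[i] '' Icc (-β k) (β k)) ∩ ((fR d c)^[j] '' Icc (-β k) (β k))).Subsingleton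

theorem tower_of {d : ℕ} {c : ℂ} {p : ℕ → ℕ} {C : ℕ → ℝ} (h : Tower d c p C) :
    Pool.Agent.U256.GD.Tower d c p C := by
  refine ⟨h.zero, h.dvd, h.lt, h.one_le, fun k i => ?_⟩
  rw [← Pool.Agent.U256.GD.norm_deriv_iter, mul_comm (p k) i]
  exact h.deriv_le k i

/-- **The multiscale inequality and its consequences.** -/
theorem result (d : ℕ) (hd : 2 ≤ d) :
    -- (1) all towers, all levels, all periods; the constant depends on the degree only
    (∃ K : ℝ, 0 < K ∧ ∀ c ∈ multibrotSet d, ∀ (p : ℕ → ℕ) (C : ℕ → ℝ), Tower d c p C → ∀ k n : ℕ,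
      (∀ m j : ℕ, j < n → ‖deriv ((f d c)^[j]) ((f d c)^[m] 0)‖ ≤ Phi p C k n) ∧
      (1 ≤ n → (∀ m z, ¬ IsAttractingCycle (f d c) m z) →
        1 / (K * (n * Phi p C k n)) ≤ ‖(f d c)^[n] 0‖ ∧
        ∀ a : ℂ, (f d a)^[n] 0 = 0 → 1 / (K * (n * Phi p C k n) ^ 2) ≤ ‖a - c‖)) ∧
    -- (2) constants which are subexponential in the periods at infinitely many levels
    (∀ c ∈ multibrotSet d, (∀ m z, ¬ IsAttractingCycle (f d c) m z) →
      ∀ (p : ℕ → ℕ) (C : ℕ → ℝ), Tower d c p C →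
        (∀ ε : ℝ, 0 < ε → ∃ k, C k ≤ Real.exp (ε * p k)) → ∀ X κ : ℝ, 0 < X → 0 < κ →
          (∀ᶠ n : ℕ in atTop, Real.exp (-(X * n)) ≤ ‖(f d c)^[n] 0‖ ∧
            ∀ a : ℂ, (f d a)^[n] 0 = 0 → Real.exp (-(X * n)) ≤ ‖a - c‖) ∧
          ∀ᶠ r : ℝ in 𝓝[>] 0, ∀ n : ℕ, 1 ≤ n →
            ((centres d n c r).ncard : ℝ) ≤ (d : ℝ) ^ n * r ^ κ + X * n) ∧
    -- (4) all real infinitely renormalizable parameters have bounded constants
    (∀ (c : ℝ) (p : ℕ → ℕ), RealPeriods d c p → (c : ℂ) ∈ multibrotSet d ∧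
      (∀ m z, ¬ IsAttractingCycle (f d c) m z) ∧ Tower d c p (fun _ => 4 * d * (1 + 8 * d))) ∧
    -- (3) bounded constants and polynomially growing ratios
    ∀ c ∈ multibrotSet d, (∀ m z, ¬ IsAttractingCycle (f d c) m z) →
      ∀ (p : ℕ → ℕ) (C : ℕ → ℝ), Tower d c p C → ∀ (C₀ : ℝ) (B a : ℕ), (∀ k, C k ≤ C₀) →
        (∀ k, p (k + 1) / p k ≤ B * (k + 1) ^ a) → ∃ A K l : ℝ, 0 < A ∧ 0 < K ∧ 0 < l ∧
          (∀ n : ℕ, 1 ≤ n → Real.exp (-(A * (1 + Real.log n) ^ (a + 1))) ≤ ‖(f d c)^[n] 0‖ ∧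
            ∀ b : ℂ, (f d b)^[n] 0 = 0 →
              Real.exp (-(A * (1 + Real.log n) ^ (a + 1))) ≤ ‖b - c‖) ∧
          (∀ᶠ r : ℝ in 𝓝[>] 0, ∀ n : ℕ, 1 ≤ n → ((centres d n c r).ncard : ℝ) ≤
            (d : ℝ) ^ n * Real.exp (-Real.exp (l * Real.log (1 / r) ^ (1 / ((a : ℝ) + 1)))) +
              K * (1 + Real.log n) ^ (a + 1)) ∧
          ∀ ψ : ℂ → ℂ, IsExteriorMap (multibrotSet d) ψ →
            (∀ᶠ r : ℝ in 𝓝[>] 0,
              harm ψ c r < Real.exp (-Real.exp (l * Real.log (1 / r) ^ (1 / ((a : ℝ) + 1)))) ∧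
              green ψ c r < Real.exp (-Real.exp (l * Real.log (1 / r) ^ (1 / ((a : ℝ) + 1))))) ∧
            ∀ F : ℂ → ℂ, Loop ψ F → ∀ ζ : ℂ, ‖ζ‖ = 1 → F ζ = c → ∀ᶠ δ : ℝ in 𝓝[>] 0,
              ∃ ξ : ℂ, ‖ξ‖ = 1 ∧ ‖ξ - ζ‖ ≤ δ ∧
                Real.exp (-(Real.log (Real.log (1 / δ)) / l) ^ (a + 1)) ≤ ‖F ξ - F ζ‖ := by
  refine ⟨?_, ?_, ?_, ?_⟩
  · obtain ⟨K, hK⟩ : ∃ K : ℝ, K = 8 ^ (d + 2) := ⟨_, rfl⟩
    have hK0 : 0 < K := by rw [hK]; positivity
    have hK1 : (8 : ℝ) ^ (d + 1) ≤ K := by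
      rw [hK]
      exact pow_le_pow_right₀ (by norm_num) (by omega)
    refine ⟨K, hK0, ?_⟩
    intro c hc p C ht k n
    have hbd : Pool.Agent.U256.GD.Bd d c n (Phi p C k n) := (tower_of ht).bd k n
    refine ⟨?_, ?_⟩
    · intro m j hj
      refine le_trans (le_of_eq ?_) (hbd.2 m j hj)
      exact Pool.Agent.U256.GD.norm_deriv_iter d c m j
    · intro hn hno
      have h1 := Pool.Agent.U256.GD.no_return hd hc hn hbd (fun z => hno n z)
      have hn' : (1 : ℝ) ≤ n := by exact_mod_cast hn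
      have hΦ := hbd.1
      obtain ⟨Y, hY⟩ : ∃ Y, Y = n * Phi p C k n := ⟨_, rfl⟩
      have hY0 : 0 < Y := by
        rw [hY]
        have : 0 < Phi p C k n := by linarith
        positivity
      rw [← hY] at h1 ⊢
      constructor
      · rw [div_le_iff₀ (by positivity)]
        calc (1 : ℝ) ≤ 8 ^ (d + 1) * Y * ‖(f d c)^[n] 0‖ := h1
          _ ≤ K * Y * ‖(f d c)^[n] 0‖ := by gcongr
          _ = _ := by ring
      · intro a ha
        have h2 := Pool.Agent.U256.GD.repulsion hd hc hn hbd (fun z => hno n z) (a := a) ha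
        rw [← hY] at h2
        rw [div_le_iff₀ (by positivity), hK]
        linarith
  · intro c hc hno p C ht hsub X κ hX hκ
    have hs : Pool.Agent.U256.GD.Sub d c := fun ε hε => (tower_of ht).subexp hsub hε
    exact ⟨Pool.Agent.U256.GD.low_exp hd hc hs hno hX,
      Pool.Agent.U256.GD.count_exp hd hc hs hno hκ hX⟩
  · rintro c p ⟨hp0, b, h⟩
    have hT : Pool.Agent.U256.RR.Tower d c p b := h
    have hd1 : (1 : ℝ) ≤ d := by exact_mod_cast (by omega : 1 ≤ d)
    exact ⟨hT.mem, fun m z => hT.no_attr hd m z, hp0, fun k => (h k).2.1, fun k => (h k).2.2.1,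
      fun _ => by nlinarith, fun k n => hT.complex_bounds hd k n⟩
  · intro c hc hno p C ht C₀ B a hC₀ hB
    have hq : Pool.Agent.U256.GD.Quasi d c a := (tower_of ht).quasi hC₀ hB
    obtain ⟨A, hA, h1⟩ := Pool.Agent.U256.GD.quasi_low hd hc hq hno
    obtain ⟨l₁, K, hl₁, hK, h2⟩ := Pool.Agent.U256.GD.quasi_count hd hc hq hno
    obtain ⟨l₂, hl₂, h3⟩ := Pool.Agent.U256.GD.quasi_harm hd hc hq
    obtain ⟨l, hl⟩ : ∃ l, l = min l₁ l₂ := ⟨_, rfl⟩
    have hl0 : 0 < l := by rw [hl]; exact lt_min hl₁ hl₂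
    have hl1 : l ≤ l₁ := by rw [hl]; exact min_le_left _ _
    have hl2 : l ≤ l₂ := by rw [hl]; exact min_le_right _ _
    have hmono : ∀ {l' r : ℝ}, l ≤ l' → 0 ≤ Real.log (1 / r) →
        Real.exp (-Real.exp (l' * Real.log (1 / r) ^ (1 / ((a : ℝ) + 1)))) ≤
          Real.exp (-Real.exp (l * Real.log (1 / r) ^ (1 / ((a : ℝ) + 1)))) := by
      intro l' r hl' hr
      have : 0 ≤ Real.log (1 / r) ^ (1 / ((a : ℝ) + 1)) := Real.rpow_nonneg hr _
      apply Real.exp_le_exp.2
      apply neg_le_neg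
      apply Real.exp_le_exp.2
      exact mul_le_mul_of_nonneg_right hl' this
    have hu := Pool.Agent.U256.GD.tendsto_u.eventually_ge_atTop 0
    have h4 : ∀ ψ : ℂ → ℂ, IsExteriorMap (multibrotSet d) ψ → ∀ᶠ r : ℝ in 𝓝[>] 0,
        harm ψ c r < Real.exp (-Real.exp (l * Real.log (1 / r) ^ (1 / ((a : ℝ) + 1)))) ∧
        green ψ c r < Real.exp (-Real.exp (l * Real.log (1 / r) ^ (1 / ((a : ℝ) + 1)))) := by
      intro ψ hψ
      filter_upwards [h3 ψ hψ, hu] with r hr hr0
      exact ⟨lt_of_lt_of_le hr.1 (hmono hl2 hr0), lt_of_lt_of_le hr.2 (hmono hl2 hr0)⟩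
    refine ⟨A, K, l, hA, hK, hl0, h1, ?_, fun ψ hψ => ⟨h4 ψ hψ, ?_⟩⟩
    · filter_upwards [h2, hu] with r hr hr0
      intro n hn
      have h5 := hr n hn
      have h6 : (d : ℝ) ^ n * Real.exp (-Real.exp (l₁ * Real.log (1 / r) ^ (1 / ((a : ℝ) + 1)))) ≤
          (d : ℝ) ^ n * Real.exp (-Real.exp (l * Real.log (1 / r) ^ (1 / ((a : ℝ) + 1)))) :=
        mul_le_mul_of_nonneg_left (hmono hl1 hr0) (by positivity)
      have h7 : ((centres d n c r).ncard : ℝ) ≤
          (d : ℝ) ^ n * Real.exp (-Real.exp (l₁ * Real.log (1 / r) ^ (1 / ((a : ℝ) + 1)))) +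
            K * (1 + Real.log n) ^ (a + 1) := h5
      linarith
    · intro F hF ζ hζ hFζ
      exact Pool.Agent.U256.GD.quasi_loop hl0 ((h4 ψ hψ).mono fun r hr => hr.1) hF.1 hF.2 hζ hFζ

end Pool.Agent.Results.MP_b511e9_an.MultiscaleRepulsion
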