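import Mathlib
import Pool.Prelude.Def_F_c31e40fa
import Pool.Agent.U256.RR.Acc

set_option autoImplicit false

/-!
# The Multibrot set meets every cone at the real infinitely renormalizable parameters

A point `c` of the Multibrot set `M_d` (the Mandelbrot set for `d = 2`) has exponential access if it is
the limit of an exponentially converging chain of discs of the complement of `M_d`. This is the case
if the complement contains a cone (a truncated sector) with vertex `c`, or the image of a cone by a
map which is quasiconformal near `c`.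

(1) Exponential access at `c` implies that the derivatives of the iterates of `f_c` along the critical
orbit grow exponentially.

(2) So the infinitely renormalizable parameters whose geometry is subexponential in the periods have
no exponential access. `M_d` meets all the cones with vertex at such a parameter.

(3) The same holds, unconditionally, at ALL REAL infinitely renormalizable parameters, of bounded or
unbounded type.
-/

open Filter Topology Set Metric MeasureTheory Complex N62a1eb23

namespace Pool.Agent.Results.MP_b511e9_an.NoConeAccess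

open Pool.Agent.H713R2

/-- The map `z ↦ z ^ d + c`. -/
def f (d : ℕ) (c : ℂ) : ℂ → ℂ := fun z => z ^ d + c

/-- Exponential access to `c` from the complement of the Multibrot set: there are open discs
`B(z_k, ρ_k)` in the complement with `|z_(k+1) - z_k| ≤ ρ_k / 2` whose centres converge exponentially to
`c`. -/
def ExponentialAccess (d : ℕ) (c : ℂ) : Prop :=
  ∃ (q A : ℝ) (z : ℕ → ℂ) (ρ : ℕ → ℝ), 0 < q ∧ q < 1 ∧ ∀ k : ℕ, 0 < ρ k ∧
    Disjoint (ball (z k) (ρ k)) (multibrotSet d) ∧ ‖z (k + 1) - z k‖ ≤ ρ k / 2 ∧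
    ‖z k - c‖ ≤ A * q ^ k

/-- The open cone with vertex `c`, direction `u`, radius `R` and opening `η`: the points `z ≠ c` with
`|z - c| < R` such that the distance of `(z - c) / |z - c|` from `u` is less than `η` (a truncated
sector). -/
def cone (c u : ℂ) (R η : ℝ) : Set ℂ :=
  {z | ‖z - c‖ < R ∧ ‖z - c - ‖z - c‖ * u‖ < η * ‖z - c‖}

/-- Subexponential geometry: for every `ε > 0` there are infinitely many `p` such that the points
`f_c^(n p) (0)` have a common distance `r` from the complement of a set `U` whose image under `f_c^p`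
has a diameter at most `exp (ε p) r`. This holds if `f_c` is infinitely renormalizable and has
polynomial-like renormalizations `f_c^p : U → f_c^p (U)` of infinitely many periods `p` whose
geometry is bounded, or bounded by `exp (ε p)`. -/
def SubexponentialGeometry (d : ℕ) (c : ℂ) : Prop :=
  ∀ ε : ℝ, 0 < ε → {p : ℕ | ∃ (U : Set ℂ) (r : ℝ), 0 < r ∧
    (∀ n : ℕ, ball ((f d c)^[n * p] 0) r ⊆ U) ∧
    ∀ z ∈ U, ∀ z' ∈ U, dist ((f d c)^[p] z) ((f d c)^[p] z') ≤ Real.exp (ε * p) * r}.Infinite

/-- The map `x ↦ x ^ d + c` of the real line. -/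
def fR (d : ℕ) (c : ℝ) : ℝ → ℝ := fun x => x ^ d + c

/-- The real parameter `c` is infinitely renormalizable: there are periods `p 0`, `p 1`, …, each a
proper divisor of the next one, and numbers `β 0 > β 1 > … > 0` such that for every `k` the map
`f_c^(p k)` maps the interval `[-β k, β k]` into itself, and any two of the `p k` intervals
`f_c^i [-β k, β k]`, `i < p k`, have at most one point in common. (There are such parameters in the
even degrees `d` only.) -/
def InfinitelyRenormalizable (d : ℕ) (c : ℝ) : Prop :=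
  ∃ (p : ℕ → ℕ) (β : ℕ → ℝ), ∀ k : ℕ, 0 < p k ∧ p k ∣ p (k + 1) ∧ p k < p (k + 1) ∧
    0 < β k ∧ β (k + 1) < β k ∧
    MapsTo ((fR d c)^[p k]) (Icc (-β k) (β k)) (Icc (-β k) (β k)) ∧
    ∀ i j : ℕ, i < j → j < p k →
      (((fR d c)^[i] '' Icc (-β k) (β k)) ∩ ((fR d c)^[j] '' Icc (-β k) (β k))).Subsingleton

theorem growth {d : ℕ} (hd : 2 ≤ d) {c : ℂ} (hc : c ∈ multibrotSet d)
    (h : ExponentialAccess d c) : ∃ a : ℝ, 0 < a ∧ ∀ᶠ p : ℕ in atTop, ∃ i : ℕ,
      Real.exp (a * p) < ‖deriv ((f d c)^[p]) ((f d c)^[i * p] 0)‖ := by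
  obtain ⟨β, hβ⟩ := exists_beta (d := d) hd
  have hψ := exteriorMap_of_beta hβ
  have h' : Pool.Agent.U256.RR.ExpAcc (multibrotSet d) c := h
  obtain ⟨κ, hκ, hB⟩ := h'.big hψ hc
  exact Pool.Agent.U256.RR.growth_of_big hd hψ hc hκ hB

/-- a cone in the complement gives exponential access -/
theorem access_of_disjoint {d : ℕ} {c u : ℂ} {R η : ℝ} (hu : ‖u‖ = 1) (hR : 0 < R) (hη : 0 < η)
    (h : Disjoint (cone c u R η) (multibrotSet d)) : ExponentialAccess d c :=
  Pool.Agent.U256.RR.expAcc_of_cone hu hR hη
    fun z hz h1 h2 => disjoint_left.1 h (show z ∈ cone c u R η from ⟨h1, h2⟩) hz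

theorem meets {d : ℕ} {c : ℂ} (h : ¬ ExponentialAccess d c) (u : ℂ) (R η : ℝ) (hu : ‖u‖ = 1)
    (hR : 0 < R) (hη : 0 < η) : (cone c u R η ∩ multibrotSet d).Nonempty := by
  rw [← not_disjoint_iff_nonempty_inter]
  exact fun h1 => h (access_of_disjoint hu hR hη h1)

/-- **No exponential access at the infinitely renormalizable parameters.** -/
theorem result (d : ℕ) (hd : 2 ≤ d) :
    -- (1) exponential access implies exponential growth of the derivatives
    (∀ c ∈ multibrotSet d, ExponentialAccess d c → ∃ a : ℝ, 0 < a ∧ ∀ᶠ p : ℕ in atTop, ∃ i : ℕ,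
      Real.exp (a * p) < ‖deriv ((f d c)^[p]) ((f d c)^[i * p] 0)‖) ∧
    -- (2) subexponential geometry
    (∀ c ∈ multibrotSet d, SubexponentialGeometry d c → ¬ ExponentialAccess d c ∧
      ∀ (u : ℂ) (R η : ℝ), ‖u‖ = 1 → 0 < R → 0 < η → (cone c u R η ∩ multibrotSet d).Nonempty) ∧
    -- (3) all real infinitely renormalizable parameters
    ∀ c : ℝ, InfinitelyRenormalizable d c → (c : ℂ) ∈ multibrotSet d ∧ ¬ ExponentialAccess d c ∧
      ∀ (u : ℂ) (R η : ℝ), ‖u‖ = 1 → 0 < R → 0 < η →
        (cone c u R η ∩ multibrotSet d).Nonempty := by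
  refine ⟨fun c hc h => growth hd hc h, fun c hc h => ?_, ?_⟩
  · have hno : ¬ ExponentialAccess d c := by
      intro hacc
      obtain ⟨a, ha, h1⟩ := growth hd hc hacc
      obtain ⟨N, hN⟩ := eventually_atTop.1 h1
      obtain ⟨p, ⟨U, r, hr, hball, hdiam⟩, hp⟩ := (h a ha).exists_gt N
      obtain ⟨i, hi⟩ := hN p hp.le
      have h2 := Pool.Agent.Y736.RN.deriv_le' (d := d) (c := c) (p := p) (U := U)
        (C := Real.exp (a * p)) hr hball (fun z hz z' hz' => by
          have h3 := hdiam z hz z' hz'
          rw [dist_eq_norm] at h3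
          exact h3) i
      rw [mul_comm i p] at hi
      exact absurd h2 (not_le.2 hi)
    exact ⟨hno, meets hno⟩
  · rintro c ⟨p, b, h⟩
    have hT : Pool.Agent.U256.RR.Tower d c p b := h
    have hno : ¬ ExponentialAccess d (c : ℂ) := by
      intro hacc
      obtain ⟨β, hβ⟩ := exists_beta (d := d) hd
      have hψ := exteriorMap_of_beta hβ
      have h' : Pool.Agent.U256.RR.ExpAcc (multibrotSet d) (c : ℂ) := hacc
      obtain ⟨κ, hκ, hB⟩ := h'.big hψ hT.mem
      exact hT.not_big hd hψ hκ hB
    exact ⟨hT.mem, hno, meets hno⟩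

end Pool.Agent.Results.MP_b511e9_an.NoConeAccess
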