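import Mathlib
import Pool.Prelude.Def_F_c31e40fa
import Pool.Agent.T2H09.LW.Cor2
import Pool.Agent.T2H09.LU.Str

/-!
# Renormalizations at very small scales and attracting cycles of low period

Let `f_c (z) = z ^ 2 + c` and let `f_c^p : U → V` be a quadratic-like restriction with critical point
`0`, where `U` is contained in the disc of radius `R` about `0` and `V` contains the disc of radius
`r` about the critical value `f_c^p (0)` (under a priori bounds `r` and `R` are comparable with the
diameter of the small Julia set). If `R ^ 2 / r` is smaller than `exp (-C (log p) ^ 2)`, then there is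
a parameter with an attracting cycle of period at most `p + 1` at distance at most
`(R ^ 2 / r) ^ (ε / log p)` from `c`. Consequently a parameter which has renormalizations of this kind
for infinitely many periods is in the closure of the set of hyperbolic parameters: it is not an
interior point of the set of the infinitely renormalizable parameters.
-/

set_option autoImplicit false

open Filter Metric Bornology

namespace Pool.Agent.Results.MP_b511e9_an.ShrinkingScales

/-- The map `z ↦ z ^ 2 + c`. -/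
def f (c : ℂ) : ℂ → ℂ := fun z => z ^ 2 + c

/-- The parameters `c` for which `z ^ 2 + c` has an attracting cycle. -/
def hyp : Set ℂ := {c | ∃ m z, N62a1eb23.IsAttractingCycle (f c) m z}

/-- There is a parameter `c'` with `|c' - c| ≤ s` such that `z ^ 2 + c'` has an attracting cycle of
period at most `N`. -/
def Near (N : ℕ) (c : ℂ) (s : ℝ) : Prop :=
  ∃ c' : ℂ, ‖c' - c‖ ≤ s ∧ ∃ m ≤ N, ∃ z, N62a1eb23.IsAttractingCycle (f c') m z

/-- `f_c^p` has a renormalization on `U` with scales `r` and `R`. The first six conditions are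
satisfied if `z ↦ z ^ 2 + c` is renormalizable of period `p` and `f_c^p : U → f_c^p (U)` is the
polynomial-like map of degree two with critical point `0`: `U` is a bounded open set which contains
the points `f_c^(n p) (0)`, `n ≥ 0`, the map is proper (boundary points of `U` are not mapped into the
image of `U`), and `0` is the only point of `U` which is mapped to the critical value `f_c^p (0)`,
with multiplicity two (`f_c^p (z) = f_c^(p-1) (c + z ^ 2)`). The last two conditions say that `U` is
contained in the disc of radius `R` about `0`, and its image contains the disc of radius `r` about the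
critical value. -/
structure Scale (c : ℂ) (p : ℕ) (U : Set ℂ) (r R : ℝ) : Prop where
  isOpen : IsOpen U
  bounded : IsBounded U
  orbit : ∀ n : ℕ, (f c)^[n * p] 0 ∈ U
  proper : ∀ z ∈ frontier U, (f c)^[p] z ∉ (f c)^[p] '' U
  only : ∀ z ∈ U, (f c)^[p] z = (f c)^[p] 0 → z = 0
  double : deriv (f c)^[p - 1] c ≠ 0
  outer : U ⊆ closedBall 0 R
  inner : ball ((f c)^[p] 0) r ⊆ (f c)^[p] '' U

theorem diff_iter (c : ℂ) (k : ℕ) : Differentiable ℂ (f c)^[k] := by
  have h : Differentiable ℂ (f c) := by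
    unfold f
    fun_prop
  exact h.iterate k

/-- The derivative at the critical value is at least `r / R ^ 2`. -/
theorem key {c : ℂ} {p : ℕ} {U : Set ℂ} {r R : ℝ} (hp : 1 ≤ p) (hr : 0 < r)
    (h : Scale c p U r R) : r / R ^ 2 ≤ ‖deriv (f c)^[p - 1] c‖ := by
  set F : ℂ → ℂ := (f c)^[p - 1] with hF
  have hFd : Differentiable ℂ F := diff_iter c (p - 1)
  have hpF : ∀ z, (f c)^[p] z = F (z ^ 2 + c) := by
    intro z
    have : p = (p - 1) + 1 := by omega
    rw [this, Function.iterate_succ_apply]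
    rfl
  set G : ℂ → ℂ := dslope F c with hG
  have hGd : Differentiable ℂ G := by
    rw [← differentiableOn_univ] at hFd ⊢
    exact (Complex.differentiableOn_dslope Filter.univ_mem).2 hFd
  set H : ℂ → ℂ := fun z => G (z ^ 2 + c) with hH
  have hHd : Differentiable ℂ H := by
    have h1 : Differentiable ℂ (fun z : ℂ => z ^ 2 + c) := by fun_prop
    exact hGd.comp h1
  have hmul : ∀ z, z ^ 2 * H z = (f c)^[p] z - (f c)^[p] 0 := by
    intro z
    have h1 : (z ^ 2 + c - c) • dslope F c (z ^ 2 + c) = F (z ^ 2 + c) - F c := sub_smul_dslope F c _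
    rw [hpF, hpF]
    simp only [hH, hG]
    rw [smul_eq_mul] at h1
    have h2 : (z ^ 2 + c - c) = z ^ 2 := by ring
    rw [h2] at h1
    rw [h1]
    simp
  have h0U : (0 : ℂ) ∈ U := by
    have := h.orbit 0
    simpa using this
  have hH0 : H 0 = deriv F c := by
    simp only [hH, hG]
    have : (0 : ℂ) ^ 2 + c = c := by ring
    rw [this, dslope_same]
  have hR : 0 ≤ R := by
    have := h.outer h0U
    rw [mem_closedBall, dist_self] at this
    exact this
  have hfr : ∀ z ∈ frontier U, z ≠ 0 ∧ ‖z‖ ≤ R ∧ r ≤ ‖(f c)^[p] z - (f c)^[p] 0‖ := by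
    intro z hz
    refine ⟨?_, ?_, ?_⟩
    · rintro rfl
      rw [h.isOpen.frontier_eq] at hz
      exact hz.2 h0U
    · have h1 : closure U ⊆ closedBall 0 R := closure_minimal h.outer isClosed_closedBall
      have h2 := h1 (frontier_subset_closure hz)
      rwa [mem_closedBall, dist_zero_right] at h2
    · by_contra hcon
      rw [not_le] at hcon
      exact h.proper z hz (h.inner (by rw [mem_ball, dist_eq_norm]; exact hcon))
  have hHfr : ∀ z ∈ frontier U, H z ≠ 0 ∧ r ≤ R ^ 2 * ‖H z‖ := by
    intro z hz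
    obtain ⟨h1, h2, h3⟩ := hfr z hz
    rw [← hmul z, norm_mul, norm_pow] at h3
    refine ⟨?_, h3.trans ?_⟩
    · intro h4
      rw [h4, norm_zero, mul_zero] at h3
      linarith
    · gcongr
  have hne : ∀ z ∈ closure U, H z ≠ 0 := by
    intro z hz
    by_cases hzU : z ∈ U
    · by_cases hz0 : z = 0
      · rw [hz0, hH0]
        exact h.double
      · intro h1
        have h2 := hmul z
        rw [h1, mul_zero] at h2
        exact hz0 (h.only z hzU (sub_eq_zero.1 h2.symm))
    · exact (hHfr z (by rw [h.isOpen.frontier_eq]; exact ⟨hz, hzU⟩)).1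
  have hd : DiffContOnCl ℂ (fun z => (H z)⁻¹) U := (hHd.diffContOnCl (s := U)).inv hne
  have hC : ∀ z ∈ frontier U, ‖(H z)⁻¹‖ ≤ R ^ 2 / r := by
    intro z hz
    obtain ⟨h1, h2⟩ := hHfr z hz
    have h3 : 0 < ‖H z‖ := norm_pos_iff.2 h1
    rw [norm_inv, inv_eq_one_div, div_le_div_iff₀ h3 hr]
    linarith
  have hfin := Complex.norm_le_of_forall_mem_frontier_norm_le h.bounded hd hC (subset_closure h0U)
  rw [norm_inv, hH0] at hfin
  have h3 : 0 < ‖deriv F c‖ := norm_pos_iff.2 h.double
  rw [inv_eq_one_div, div_le_div_iff₀ h3 hr] at hfin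
  rcases eq_or_lt_of_le hR with hR0 | hRpos
  · rw [← hR0] at hfin
    simp at hfin
    linarith
  · rw [div_le_iff₀ (by positivity)]
    linarith

theorem mem_M {c : ℂ} {p : ℕ} {U : Set ℂ} {r R : ℝ} (hp : 1 ≤ p) (h : Scale c p U r R) :
    c ∈ N62a1eb23.multibrotSet 2 := by
  intro ht
  have h1 : Tendsto (fun n : ℕ => n * p) atTop atTop := by
    refine tendsto_atTop_mono (fun n => ?_) (tendsto_id (α := ℕ))
    show n ≤ n * p
    nlinarith
  have h2 := ht.comp h1
  have h3 : ∀ᶠ z in cobounded ℂ, z ∉ U := h.bounded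
  obtain ⟨n, hn⟩ := (h2.eventually h3).exists
  exact hn (h.orbit n)

theorem deriv_eq (c : ℂ) (k : ℕ) : deriv (f c)^[k] c = Pool.Agent.W746.LD.P 2 c c k :=
  (Pool.Agent.W746.LD.hasDerivAt_orb c k).deriv

/-- **Renormalizations at very small scales.** There are `C, ε > 0` such that for every `c` and every
renormalization of period `p ≥ 3` with scales `r, R`:
(1) if `r / R ^ 2 ≥ exp (C (log p) ^ 2)`, then some `c'` at distance at most
`(R ^ 2 / r) ^ (ε / log p)` from `c` has an attracting cycle of period at most `p + 1`;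
(2) if `L = log (r / R ^ 2)` satisfies `L ^ 3 ≥ C p ^ 2 log p`, then the distance of `c` to the
parameters with an attracting cycle is at most `exp (- ε L ^ 2 / p)`;
(3) a parameter with renormalizations as in (1) for infinitely many `p` is in the closure of the set
of the parameters with an attracting cycle. -/
theorem result : ∃ C ε : ℝ, 0 < C ∧ 0 < ε ∧
    (∀ (c : ℂ) (p : ℕ) (U : Set ℂ) (r R : ℝ), 3 ≤ p → 0 < r → Scale c p U r R →
      Real.exp (C * Real.log p ^ 2) ≤ r / R ^ 2 →
      Near (p + 1) c ((R ^ 2 / r) ^ (ε / Real.log p))) ∧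
    (∀ (c : ℂ) (p : ℕ) (U : Set ℂ) (r R : ℝ), 3 ≤ p → 0 < r → Scale c p U r R →
      C * p ^ 2 * Real.log p ≤ Real.log (r / R ^ 2) ^ 3 →
      infDist c hyp ≤ Real.exp (-(ε * Real.log (r / R ^ 2) ^ 2 / p))) ∧
    (∀ c : ℂ, (∃ᶠ p : ℕ in atTop, ∃ (U : Set ℂ) (r R : ℝ), 0 < r ∧ Scale c p U r R ∧
        Real.exp (C * Real.log p ^ 2) ≤ r / R ^ 2) →
      c ∈ closure hyp) := by
  obtain ⟨C₁, ε₁, hC₁, hε₁, h₁⟩ := Pool.Agent.T2H09.LW.growV2 (n := 2) le_rfl
  obtain ⟨C₂, ε₂, hC₂, hε₂, h₂⟩ := Pool.Agent.T2H09.LU.strong (n := 2) le_rfl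
  set C := max C₁ C₂ with hC
  set ε := min ε₁ ε₂ with hε
  have hCpos : 0 < C := lt_max_of_lt_left hC₁
  have hεpos : 0 < ε := lt_min hε₁ hε₂
  have hC1 : C₁ ≤ C := le_max_left _ _
  have hC2 : C₂ ≤ C := le_max_right _ _
  have hε1 : ε ≤ ε₁ := min_le_left _ _
  have hε2 : ε ≤ ε₂ := min_le_right _ _
  have part1 : ∀ (c : ℂ) (p : ℕ) (U : Set ℂ) (r R : ℝ), 3 ≤ p → 0 < r → Scale c p U r R →
      Real.exp (C * Real.log p ^ 2) ≤ r / R ^ 2 →
      Near (p + 1) c ((R ^ 2 / r) ^ (ε / Real.log p)) := by
    intro c p U r R hp hr hS hbig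
    obtain ⟨N, rfl⟩ : ∃ N, p = N + 1 := ⟨p - 1, by omega⟩
    have hk := key (by omega) hr hS
    rw [deriv_eq] at hk
    simp only [Nat.add_sub_cancel] at hk
    have hN2 : 2 ≤ N := by omega
    have hlogN : 0 < Real.log N := Real.log_pos (by exact_mod_cast (by omega : 1 < N))
    have hlogle : Real.log N ≤ Real.log (N + 1 : ℕ) := by
      apply Real.log_le_log (by exact_mod_cast (by omega : 0 < N))
      push_cast
      linarith
    have h3 : Real.exp (C₁ * Real.log N ^ 2) ≤ ‖Pool.Agent.W746.LD.P 2 c c N‖ := by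
      refine le_trans ?_ (hbig.trans hk)
      apply Real.exp_le_exp.2
      gcongr
    obtain ⟨c', h4, m, hm, z, hz⟩ := h₁ c (mem_M (by omega) hS) N hN2 h3
    refine ⟨c', h4.trans ?_, m, hm.trans (by omega), z, hz⟩
    have hrR : 0 < r / R ^ 2 := (Real.exp_pos _).trans_le hbig
    have h5 : ‖Pool.Agent.W746.LD.P 2 c c N‖⁻¹ ≤ R ^ 2 / r := by
      rw [← inv_div]
      exact inv_anti₀ hrR hk
    have h6 : R ^ 2 / r ≤ 1 := by
      rw [← inv_div]
      apply inv_le_one_of_one_le₀
      refine le_trans ?_ hbig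
      apply Real.one_le_exp
      positivity
    have h7 : 0 < R ^ 2 / r := by
      rw [← inv_div]
      exact inv_pos.2 hrR
    calc (‖Pool.Agent.W746.LD.P 2 c c N‖⁻¹) ^ (ε₁ / Real.log N)
        ≤ (R ^ 2 / r) ^ (ε₁ / Real.log N) :=
          Real.rpow_le_rpow (by positivity) h5 (by positivity)
      _ ≤ (R ^ 2 / r) ^ (ε / Real.log (N + 1 : ℕ)) := by
          apply Real.rpow_le_rpow_of_exponent_ge h7 h6
          gcongr
  refine ⟨C, ε, hCpos, hεpos, part1, ?_, ?_⟩
  · intro c p U r R hp hr hS hbig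
    obtain ⟨N, rfl⟩ : ∃ N, p = N + 1 := ⟨p - 1, by omega⟩
    have hk := key (by omega) hr hS
    rw [deriv_eq] at hk
    simp only [Nat.add_sub_cancel] at hk
    have hN2 : 2 ≤ N := by omega
    have hNpos : (0 : ℝ) < N := by exact_mod_cast (by omega : 0 < N)
    have hlogN : 0 < Real.log N := Real.log_pos (by exact_mod_cast (by omega : 1 < N))
    have hlogle : Real.log N ≤ Real.log (N + 1 : ℕ) := by
      apply Real.log_le_log hNpos
      push_cast
      linarith
    have hNle : (N : ℝ) ≤ ((N + 1 : ℕ) : ℝ) := by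
      push_cast
      linarith
    set L := Real.log (r / R ^ 2) with hL
    have hpos : 0 < C * ((N + 1 : ℕ) : ℝ) ^ 2 * Real.log (N + 1 : ℕ) := by
      have : 0 < Real.log (N + 1 : ℕ) := hlogN.trans_le hlogle
      positivity
    have hL3 : 0 < L ^ 3 := hpos.trans_le hbig
    have hLpos : 0 < L := by
      by_contra hcon
      rw [not_lt] at hcon
      have : L ^ 3 ≤ 0 := by
        have h9 : L ^ 3 = L * L ^ 2 := by ring
        rw [h9]
        exact mul_nonpos_of_nonpos_of_nonneg hcon (sq_nonneg L)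
      linarith
    have hrR : 0 < r / R ^ 2 := by
      by_contra hcon
      rw [not_lt] at hcon
      have h9 : 0 ≤ r / R ^ 2 := by positivity
      have h10 : r / R ^ 2 = 0 := le_antisymm hcon h9
      rw [hL, h10, Real.log_zero] at hLpos
      exact lt_irrefl _ hLpos
    have hlog : L ≤ Real.log ‖Pool.Agent.W746.LD.P 2 c c N‖ := Real.log_le_log hrR hk
    have h3 : C₂ * (N : ℝ) ^ 2 * Real.log N ≤ Real.log ‖Pool.Agent.W746.LD.P 2 c c N‖ ^ 3 := by
      calc C₂ * (N : ℝ) ^ 2 * Real.log N
          ≤ C * ((N + 1 : ℕ) : ℝ) ^ 2 * Real.log (N + 1 : ℕ) := by gcongr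
        _ ≤ L ^ 3 := hbig
        _ ≤ _ := by gcongr
    refine (h₂ c (mem_M (by omega) hS) N hN2 h3).trans (Real.exp_le_exp.2 (neg_le_neg ?_))
    gcongr
  · intro c hf
    have hlim : Tendsto (fun p : ℕ => Real.exp (-(ε * C * Real.log p))) atTop (nhds 0) := by
      apply Real.tendsto_exp_atBot.comp
      apply Filter.tendsto_neg_atTop_atBot.comp
      exact (Real.tendsto_log_atTop.comp tendsto_natCast_atTop_atTop).const_mul_atTop
        (mul_pos hεpos hCpos)
    rw [Metric.mem_closure_iff]
    intro δ hδ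
    obtain ⟨p, ⟨U, r, R, hr, hS, hbig⟩, hp3, hsmall⟩ := (hf.and_eventually
      ((eventually_ge_atTop 3).and (hlim.eventually (gt_mem_nhds hδ)))).exists
    obtain ⟨c', h1, m, hm, z, hz⟩ := part1 c p U r R hp3 hr hS hbig
    refine ⟨c', ⟨m, z, hz⟩, ?_⟩
    rw [dist_comm, dist_eq_norm]
    refine lt_of_le_of_lt (h1.trans ?_) hsmall
    have hlogp : 0 < Real.log p := Real.log_pos (by exact_mod_cast (by omega : 1 < p))
    have hrR : 0 < r / R ^ 2 := (Real.exp_pos _).trans_le hbig
    have h5 : R ^ 2 / r ≤ Real.exp (-(C * Real.log p ^ 2)) := by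
      rw [← inv_div, Real.exp_neg]
      exact inv_anti₀ (Real.exp_pos _) hbig
    have h7 : 0 ≤ R ^ 2 / r := by positivity
    calc (R ^ 2 / r) ^ (ε / Real.log p)
        ≤ (Real.exp (-(C * Real.log p ^ 2))) ^ (ε / Real.log p) :=
          Real.rpow_le_rpow h7 h5 (by positivity)
      _ = Real.exp (-(ε * C * Real.log p)) := by
          rw [← Real.exp_mul]
          congr 1
          field_simp

end Pool.Agent.Results.MP_b511e9_an.ShrinkingScales
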