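import Mathlib
import Pool.Prelude.Def_F_c31e40fa
import Pool.Agent.U256.GD4
import Pool.Agent.U256.RR.Acc
import Pool.Agent.U256.RR.H3

set_option autoImplicit false

/-!
# The corridors of the complement of the Multibrot set are thin at real infinitely renormalizable points

Consider chains of discs in the complement of the Multibrot set `M_d` which start outside of the disc
`|z| < 3`, such that the distance of consecutive centres is at most one half of the radius. The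
number of discs of such a chain which is necessary to come close to a point is, up to constants, the
quasihyperbolic distance. We bound it from below at every `c` in `M_d` by the derivatives of the
iterates of `f_c` along the critical orbit. If these derivatives are `O(n ^ s)`, then the `k`-th disc
of a chain has at least a distance of order `k ^ (-2 s - 2)` from `c`, so that the corridors of the
complement of `M_d` which lead to `c` are very thin: a chain needs `const · |z - c| ^ (-1/(2s+2))` discs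
to reach a point `z`, and not `O(log (1 / |z - c|))` as in a cone. This holds with `s = 0` at the
parabolic parameters, and, unconditionally, with some `s` at all the real infinitely renormalizable
parameters of bounded type. For these we prove the real a priori bounds.
-/

open Filter Topology Set Metric MeasureTheory Complex N62a1eb23

namespace Pool.Agent.Results.MP_b511e9_an.ThinCorridors

open Pool.Agent.H713R2

/-- The map `z ↦ z ^ d + c`. -/
def f (d : ℕ) (c : ℂ) : ℂ → ℂ := fun z => z ^ d + c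

/-- The `z k` are the centres of a chain of open discs `B(z k, ρ k)` of the complement of the Multibrot
set with `|z (k+1) - z k| ≤ ρ k / 2`, and the chain starts outside of the disc of radius `3`. -/
def Corridor (d : ℕ) (z : ℕ → ℂ) : Prop :=
  3 ≤ ‖z 0‖ ∧ ∃ ρ : ℕ → ℝ, ∀ k : ℕ, 0 < ρ k ∧ Disjoint (ball (z k) (ρ k)) (multibrotSet d) ∧
    ‖z (k + 1) - z k‖ ≤ ρ k / 2

/-- `Φ ≥ 1` bounds the derivatives of the iterates `f_c^k`, `k < n`, at all points `f_c^m (0)` of the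
critical orbit. -/
def DerivBound (d : ℕ) (c : ℂ) (n : ℕ) (Φ : ℝ) : Prop :=
  1 ≤ Φ ∧ ∀ m k : ℕ, k < n → ‖deriv ((f d c)^[k]) ((f d c)^[m] 0)‖ ≤ Φ

/-- The derivatives of the iterates along the critical orbit are `O(n ^ s)`. -/
def PolynomialGrowth (d : ℕ) (c : ℂ) (s : ℝ) : Prop :=
  ∃ C : ℝ, ∀ m n : ℕ, ‖deriv ((f d c)^[n]) ((f d c)^[m] 0)‖ ≤ C * ((n : ℝ) + 1) ^ s

/-- `c` is parabolic: some points `f_c^(N k) (0)`, `k → ∞`, of the critical orbit converge to a
periodic point with multiplier one. -/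
def Parabolic (d : ℕ) (c : ℂ) : Prop :=
  ∃ (N : ℕ) (z₀ : ℂ), 1 ≤ N ∧ (f d c)^[N] z₀ = z₀ ∧ deriv ((f d c)^[N]) z₀ = 1 ∧
    Tendsto (fun k => (f d c)^[N * k] 0) atTop (𝓝 z₀)

/-- The map `x ↦ x ^ d + c` of the real line. -/
def fR (d : ℕ) (c : ℝ) : ℝ → ℝ := fun x => x ^ d + c

/-- The real map `f_c` is infinitely renormalizable of bounded type: there are periods `p 0`, `p 1`, …,
each a proper divisor of the next one, with bounded ratios `p (k + 1) / p k ≤ B`, and numbers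
`β 0 > β 1 > … > 0` such that for every `k` the map `f_c^(p k)` maps the interval `[-β k, β k]` into
itself, and any two of the `p k` intervals `f_c^i [-β k, β k]`, `i < p k`, have at most one point in
common. (There are such parameters in the even degrees `d` only.) -/
def RealBoundedType (d : ℕ) (c : ℝ) : Prop :=
  ∃ (p : ℕ → ℕ) (β : ℕ → ℝ) (B : ℕ), (∀ k, p (k + 1) ≤ B * p k) ∧
    ∀ k : ℕ, 0 < p k ∧ p k ∣ p (k + 1) ∧ p k < p (k + 1) ∧ 0 < β k ∧ β (k + 1) < β k ∧
      MapsTo ((fR d c)^[p k]) (Icc (-β k) (β k)) (Icc (-β k) (β k)) ∧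
      ∀ i j : ℕ, i < j → j < p k →
        (((fR d c)^[i] '' Icc (-β k) (β k)) ∩ ((fR d c)^[j] '' Icc (-β k) (β k))).Subsingleton

theorem bd_of {d : ℕ} {c : ℂ} {n : ℕ} {Φ : ℝ} (h : DerivBound d c n Φ) :
    Pool.Agent.U256.GD.Bd d c n Φ := by
  refine ⟨h.1, fun m k hk => ?_⟩
  rw [← Pool.Agent.U256.GD.norm_deriv_iter]
  exact h.2 m k hk

/-- Green's function along a corridor -/
theorem low {d : ℕ} (hd : 2 ≤ d) {ψ : ℂ → ℂ} (hψ : IsExteriorMap (multibrotSet d) ψ) {z : ℕ → ℂ}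
    (h : Corridor d z) (k : ℕ) :
    ∃ w : ℂ, 1 < ‖w‖ ∧ ψ w = z k ∧ 1 / 3 / 3 ^ k ≤ Real.log ‖w‖ := by
  obtain ⟨h3, ρ, h⟩ := h
  have hw : ∀ k, ∃ w : ℂ, 1 < ‖w‖ ∧ ψ w = z k := by
    intro k
    have h1 : z k ∈ ψ '' {z : ℂ | 1 < ‖z‖} := by
      rw [hψ.image]
      exact disjoint_left.1 (h k).2.1 (mem_ball_self (h k).1)
    obtain ⟨w, hw, hw'⟩ := h1
    exact ⟨w, hw, hw'⟩
  choose w hw1 hwz using hw
  refine ⟨w k, hw1 k, hwz k, ?_⟩
  induction k with
  | zero =>
    have h1 : ‖ψ (w 0)‖ ≤ 2 * ‖w 0‖ := by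
      obtain ⟨β, hβ⟩ := exists_beta (d := d) hd
      rw [exteriorMap_unique hβ hψ (hw1 0), norm_mul, mul_comm]
      have := hβ.bound _ (inv_mem_ball (hw1 0)).1
      gcongr
    rw [hwz 0] at h1
    have h2 : 3 / 2 ≤ ‖w 0‖ := by linarith
    have h4 : Real.log (3 / 2) ≤ Real.log ‖w 0‖ := Real.log_le_log (by norm_num) h2
    have h5 := Real.one_sub_inv_le_log_of_pos (show (0 : ℝ) < 3 / 2 by norm_num)
    norm_num at h5 ⊢
    linarith
  | succ k ih =>
    have h1 := Pool.Agent.U256.RR.green_step hψ (hw1 k) (hw1 (k + 1)) (h k).1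
      (by rw [hwz k]; exact (h k).2.1) (by rw [hwz k, hwz (k + 1)]; exact (h k).2.2)
    refine le_trans ?_ h1
    rw [pow_succ, ← div_div]
    gcongr

/-- **The corridors are thin.** -/
theorem result (d : ℕ) (hd : 2 ≤ d) :
    -- (1) a universal bound, with a constant that depends on the degree only
    (∃ K : ℝ, 0 < K ∧ ∀ c ∈ multibrotSet d, ∀ z : ℕ → ℂ, Corridor d z → ∀ k N : ℕ, 1 ≤ N →
      K * 3 ^ k ≤ (d : ℝ) ^ N → ∀ Φ : ℝ, DerivBound d c N Φ →
        1 / (K * (N * Φ) ^ 2) ≤ ‖z k - c‖) ∧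
    -- (2) polynomial growth of the derivatives
    (∀ c ∈ multibrotSet d, ∀ s : ℝ, 0 ≤ s → PolynomialGrowth d c s → ∃ κ : ℝ, 0 < κ ∧
      ∀ z : ℕ → ℂ, Corridor d z → ∀ k : ℕ, κ / ((k : ℝ) + 1) ^ (2 * s + 2) ≤ ‖z k - c‖) ∧
    -- (3) parabolic parameters
    (∀ c ∈ multibrotSet d, Parabolic d c → PolynomialGrowth d c 0) ∧
    -- (4) real infinitely renormalizable parameters of bounded type
    ∀ c : ℝ, RealBoundedType d c → (c : ℂ) ∈ multibrotSet d ∧
      ∃ s : ℝ, 0 ≤ s ∧ PolynomialGrowth d c s := by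
  obtain ⟨β, hβ⟩ := exists_beta (d := d) hd
  have hψ := exteriorMap_of_beta hβ
  have hd0 : (0 : ℝ) < d := by exact_mod_cast (by omega : 0 < d)
  have hd2 : (2 : ℝ) ≤ d := by exact_mod_cast hd
  have key : ∃ K : ℝ, 0 < K ∧ ∀ c ∈ multibrotSet d, ∀ z : ℕ → ℂ, Corridor d z → ∀ k N : ℕ, 1 ≤ N →
      K * 3 ^ k ≤ (d : ℝ) ^ N → ∀ Φ : ℝ, DerivBound d c N Φ →
        1 / (K * (N * Φ) ^ 2) ≤ ‖z k - c‖ := by
    have h3 : (0 : ℝ) < 4 * 3 ^ d := by positivity
    obtain ⟨K, hK⟩ : ∃ K : ℝ, K = 4 * 3 ^ d + 9 * d + 1 := ⟨_, rfl⟩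
    have hK0 : 0 < K := by rw [hK]; positivity
    refine ⟨K, hK0, ?_⟩
    intro c hc z hz k N hN hkN Φ hΦ
    obtain ⟨w, hw1, hwz, hlow⟩ := low hd hψ hz k
    have hN1 : (1 : ℝ) ≤ N := by exact_mod_cast hN
    have hΦ1 := hΦ.1
    have hNΦ : 0 < (N * Φ) ^ 2 := by positivity
    by_contra hcon
    push Not at hcon
    rw [lt_div_iff₀ (by positivity)] at hcon
    have h1 := Pool.Agent.U256.GD.log_le_green hd hc hN (bd_of hΦ) hψ hw1 (ρ := ‖z k - c‖)
      (by rw [hwz]) (by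
        calc 4 * 3 ^ d * ‖z k - c‖ * (N * Φ) ^ 2 = ‖z k - c‖ * ((4 * 3 ^ d) * (N * Φ) ^ 2) := by
              ring
          _ ≤ ‖z k - c‖ * (K * (N * Φ) ^ 2) := by
              gcongr
              rw [hK]
              linarith
          _ ≤ 1 := hcon.le)
    have h2 : 3 * d / (d : ℝ) ^ N < 1 / 3 / 3 ^ k := by
      rw [div_div, div_lt_div_iff₀ (by positivity) (by positivity)]
      have h4 : (0 : ℝ) < 3 ^ k := by positivity
      have h5 : 9 * d * 3 ^ k < (d : ℝ) ^ N := by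
        refine lt_of_lt_of_le ?_ hkN
        apply mul_lt_mul_of_pos_right _ h4
        rw [hK]
        linarith
      nlinarith
    linarith
  refine ⟨key, ?_, ?_, ?_⟩
  · -- (2)
    intro c hc s hs h
    obtain ⟨K, hK, hkey⟩ := key
    obtain ⟨C, hC⟩ := h
    obtain ⟨C', hC'⟩ : ∃ C', C' = max C 1 := ⟨_, rfl⟩
    have hC1 : 1 ≤ C' := hC' ▸ le_max_right _ _
    have hDB : ∀ n : ℕ, 1 ≤ n → DerivBound d c n (C' * (n : ℝ) ^ s) := by
      intro n hn
      have hn1 : (1 : ℝ) ≤ n := by exact_mod_cast hn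
      have h1 : 1 ≤ (n : ℝ) ^ s := Real.one_le_rpow hn1 hs
      refine ⟨by nlinarith, fun m k hk => (hC m k).trans ?_⟩
      have h2 : ((k : ℝ) + 1) ^ s ≤ (n : ℝ) ^ s := by
        apply Real.rpow_le_rpow (by positivity) _ hs
        exact_mod_cast hk
      have h3 : C ≤ C' := hC' ▸ le_max_left _ _
      calc C * ((k : ℝ) + 1) ^ s ≤ C' * ((k : ℝ) + 1) ^ s := by gcongr
        _ ≤ _ := by gcongr
    obtain ⟨m, hm⟩ := pow_unbounded_of_one_lt (max K 3) (show (1 : ℝ) < 2 by norm_num)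
    have hmK : K ≤ 2 ^ m := (le_max_left _ _).trans hm.le
    have hm3 : (3 : ℝ) ≤ 2 ^ m := (le_max_right _ _).trans hm.le
    have hm0 : 1 ≤ m := by
      rcases Nat.eq_zero_or_pos m with h0 | h0
      · rw [h0] at hm3
        norm_num at hm3
      · exact h0
    have hmR : (0 : ℝ) < m := by exact_mod_cast hm0
    obtain ⟨κ, hκ⟩ : ∃ κ : ℝ, κ = 1 / (K * (C' * (m : ℝ) ^ (s + 1)) ^ 2) := ⟨_, rfl⟩
    have hκ0 : 0 < κ := by rw [hκ]; positivity
    refine ⟨κ, hκ0, fun z hz k => ?_⟩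
    have hk0 : (0 : ℝ) < (k : ℝ) + 1 := by positivity
    have hN1 : 1 ≤ m * (k + 1) := Nat.mul_pos hm0 (Nat.succ_pos k)
    have h1 := hkey c hc z hz k (m * (k + 1)) hN1 (by
      calc K * 3 ^ k ≤ (2 ^ m) * (2 ^ m) ^ k := by gcongr
        _ = (2 : ℝ) ^ (m * (k + 1)) := by
            rw [pow_mul, pow_succ]
            ring
        _ ≤ (d : ℝ) ^ (m * (k + 1)) := by gcongr) _ (hDB _ hN1)
    refine le_trans (le_of_eq ?_) h1
    rw [hκ, div_div]
    congr 1
    have e1 : ((m * (k + 1) : ℕ) : ℝ) = m * ((k : ℝ) + 1) := by push_cast; ring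
    rw [e1, Real.mul_rpow hmR.le hk0.le]
    have e2 : ((k : ℝ) + 1) ^ (2 * s + 2) = (((k : ℝ) + 1) ^ s * ((k : ℝ) + 1)) ^ 2 := by
      rw [← Real.rpow_natCast, ← Real.rpow_add_one hk0.ne', ← Real.rpow_mul hk0.le]
      congr 1
      push_cast
      ring
    rw [e2, Real.rpow_add_one hmR.ne']
    ring
  · -- (3)
    intro c hc hp
    obtain ⟨N, z₀, hN, h1, h2, h3⟩ := hp
    obtain ⟨C, hC⟩ := Pool.Agent.U256.GD.parabolic_DD hd hc hN h1 h2 h3
    refine ⟨C, fun m n => ?_⟩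
    rw [Real.rpow_zero, mul_one]
    have h4 := hC m (m + n) (by omega)
    rw [← Pool.Agent.U256.GD.norm_deriv_iter] at h4
    exact h4
  · -- (4)
    rintro c ⟨p, b, B, hB, h⟩
    have hT : Pool.Agent.U256.RR.Tower d c p b := h
    obtain ⟨s, hs, C, hC⟩ := hT.poly' hd hB
    exact ⟨hT.mem, s, hs, C, hC⟩

end Pool.Agent.Results.MP_b511e9_an.ThinCorridors
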