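import Mathlib
import Pool.Prelude.Def_F_c31e40fa
import Pool.Agent.U256.GD4
import Pool.Agent.U256.RR.PE
import Pool.Agent.U256.RR.NoAttr

set_option autoImplicit false

/-!
# The set of all real infinitely renormalizable parameters of type at most `B`

Let `R_B` be the set of all real parameters `c` such that `x ^ d + c` is infinitely renormalizable with
ratios of consecutive periods at most `B`. We prove bounds which are uniform in `R_B`, with explicit
exponents: with `C = 4 d (1 + 8 d)` (the constant of the real a priori bounds, which we prove) and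
`s = 2 log (C ^ B) / log 2`,

(1) all the derivatives of `f_c^n` along the critical orbit are at most `C ^ B (n + 1) ^ s`;

(2) the harmonic measure of the whole neighbourhood of `R_B` of radius `N ^ (-2 s - 2) / K` is at most
`K N ^ (2 s + 2) / d ^ N`, and Green's function of the complement of `M_d` is at most `K / d ^ N` there:
both are exponentially small in `N`, while the radius decreases like a power of `N` only;

(3) the superattracting parameters of period `n` have at least the distance `n ^ (-2 s - 2) / K` from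
`R_B`.
-/

open Filter Topology Set Metric MeasureTheory Complex N62a1eb23

namespace Pool.Agent.Results.MP_b511e9_an.UniformBoundedType

open Pool.Agent.H713R2

/-- The map `z ↦ z ^ d + c`. -/
def f (d : ℕ) (c : ℂ) : ℂ → ℂ := fun z => z ^ d + c

/-- The map `x ↦ x ^ d + c` of the real line. -/
def fR (d : ℕ) (c : ℝ) : ℝ → ℝ := fun x => x ^ d + c

/-- The set of all real infinitely renormalizable parameters of type at most `B`: there are periods
`p 0 = 1`, `p 1`, …, each a proper divisor of the next one, with ratios `p (k + 1) / p k ≤ B`, and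
numbers `β 0 > β 1 > … > 0` such that for every `k` the map `f_c^(p k)` maps the interval `[-β k, β k]`
into itself, and any two of the `p k` intervals `f_c^i [-β k, β k]`, `i < p k`, have at most one point
in common. -/
def realSet (d B : ℕ) : Set ℝ :=
  {c | ∃ (p : ℕ → ℕ) (β : ℕ → ℝ), p 0 = 1 ∧ (∀ k, p (k + 1) ≤ B * p k) ∧
    ∀ k : ℕ, 0 < p k ∧ p k ∣ p (k + 1) ∧ p k < p (k + 1) ∧ 0 < β k ∧ β (k + 1) < β k ∧
      MapsTo ((fR d c)^[p k]) (Icc (-β k) (β k)) (Icc (-β k) (β k)) ∧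
      ∀ i j : ℕ, i < j → j < p k →
        (((fR d c)^[i] '' Icc (-β k) (β k)) ∩ ((fR d c)^[j] '' Icc (-β k) (β k))).Subsingleton}

/-- The constant `4 d (1 + 8 d)`. -/
noncomputable def const (d : ℕ) : ℝ := 4 * d * (1 + 8 * d)

/-- The exponent `2 log (C ^ B) / log 2`, where `C = 4 d (1 + 8 d)`. -/
noncomputable def expo (d B : ℕ) : ℝ := 2 * Real.log (const d ^ B) / Real.log 2

/-- The angles `t ∈ (0, 2π]` of the external rays landing at distance less than `r` from `realSet d B`. -/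
def angles (d B : ℕ) (ψ : ℂ → ℂ) (r : ℝ) : Set ℝ :=
  {t | t ∈ Ioc 0 (2 * Real.pi) ∧ ∃ c ∈ realSet d B, ∃ ζ ∈ ball (c : ℂ) r,
    Tendsto (fun ρ : ℝ => ψ (ρ * exp (t * I))) (𝓝[>] 1) (𝓝 ζ)}

theorem growth {d : ℕ} (hd : 2 ≤ d) {B : ℕ} {c : ℝ} (hc : c ∈ realSet d B) (m n : ℕ) :
    ‖deriv ((f d c)^[n]) ((f d c)^[m] 0)‖ ≤ const d ^ B * ((n : ℝ) + 1) ^ expo d B := by
  obtain ⟨p, β, hp0, hB, h⟩ := hc
  have hT : Pool.Agent.U256.RR.Tower d c p β := h
  exact hT.poly_explicit hd hp0 hB m n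

theorem const_ge {d : ℕ} (hd : 2 ≤ d) : 1 ≤ const d := by
  have hd1 : (1 : ℝ) ≤ d := by exact_mod_cast (by omega : 1 ≤ d)
  unfold const
  nlinarith

theorem expo_nonneg {d : ℕ} (hd : 2 ≤ d) (B : ℕ) : 0 ≤ expo d B := by
  have h1 : (1 : ℝ) ≤ const d ^ B := one_le_pow₀ (const_ge hd)
  have h2 := Real.log_nonneg h1
  have h3 : 0 < Real.log 2 := Real.log_pos (by norm_num)
  unfold expo
  positivity

theorem bd {d : ℕ} (hd : 2 ≤ d) {B : ℕ} {c : ℝ} (hc : c ∈ realSet d B) {n : ℕ} (hn : 1 ≤ n) :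
    Pool.Agent.U256.GD.Bd d (c : ℂ) n (const d ^ B * (n : ℝ) ^ expo d B) := by
  have hs := expo_nonneg hd B
  have h0 : (1 : ℝ) ≤ const d ^ B := one_le_pow₀ (const_ge hd)
  have hn1 : (1 : ℝ) ≤ n := by exact_mod_cast hn
  have h1 : 1 ≤ (n : ℝ) ^ expo d B := Real.one_le_rpow hn1 hs
  refine ⟨by nlinarith, fun m k hk => ?_⟩
  rw [← Pool.Agent.U256.GD.norm_deriv_iter]
  refine (growth hd hc m k).trans ?_
  apply mul_le_mul_of_nonneg_left _ (by linarith)
  apply Real.rpow_le_rpow (by positivity) _ hs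
  exact_mod_cast hk

/-- **Uniform bounds for the set of all real infinitely renormalizable parameters of type `≤ B`.** -/
theorem result (d B : ℕ) (hd : 2 ≤ d) :
    (∃ ψ : ℂ → ℂ, IsExteriorMap (multibrotSet d) ψ) ∧
    -- (1) the set is in `M_d`, and the derivatives grow at most polynomially, uniformly
    (∀ c ∈ realSet d B, (c : ℂ) ∈ multibrotSet d ∧ (∀ m z, ¬ IsAttractingCycle (f d c) m z) ∧
      ∀ m n : ℕ, ‖deriv ((f d c)^[n]) ((f d c)^[m] 0)‖ ≤
        const d ^ B * ((n : ℝ) + 1) ^ expo d B) ∧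
    ∃ K : ℝ, 0 < K ∧
      -- (2) harmonic measure and Green's function of the neighbourhoods of the whole set
      (∀ ψ : ℂ → ℂ, IsExteriorMap (multibrotSet d) ψ → ∀ N : ℕ, 1 ≤ N →
        (volume (angles d B ψ (1 / (K * (N : ℝ) ^ (2 * expo d B + 2))))).toReal ≤
          K * (N : ℝ) ^ (2 * expo d B + 2) / (d : ℝ) ^ N ∧
        ∀ c ∈ realSet d B, ∀ w : ℂ, 1 < ‖w‖ →
          ‖ψ w - c‖ ≤ 1 / (K * (N : ℝ) ^ (2 * expo d B + 2)) → Real.log ‖w‖ ≤ K / (d : ℝ) ^ N) ∧
      -- (3) the superattracting parameters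
      ∀ n : ℕ, 1 ≤ n → ∀ a : ℂ, (f d a)^[n] 0 = 0 → ∀ c ∈ realSet d B,
        1 / (K * (n : ℝ) ^ (2 * expo d B + 2)) ≤ ‖a - c‖ := by
  obtain ⟨β, hβ⟩ := exists_beta (d := d) hd
  have hd0 : (0 : ℝ) < d := by exact_mod_cast (by omega : 0 < d)
  have hpi := Real.pi_pos
  have hlog2 : 0 < Real.log 2 := Real.log_pos (by norm_num)
  have hs := expo_nonneg hd B
  obtain ⟨s, hsdef⟩ : ∃ s, s = expo d B := ⟨_, rfl⟩
  obtain ⟨C, hCdef⟩ : ∃ C, C = const d ^ B := ⟨_, rfl⟩
  have hC1 : 1 ≤ C := hCdef ▸ one_le_pow₀ (const_ge hd)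
  have hC0 : 0 < C := by linarith
  have hmem : ∀ c ∈ realSet d B, (c : ℂ) ∈ multibrotSet d ∧
      ∀ m z, ¬ IsAttractingCycle (f d (c : ℂ)) m z := by
    rintro c ⟨p, b, hp0, hB, h⟩
    have hT : Pool.Agent.U256.RR.Tower d c p b := h
    exact ⟨hT.mem, fun m z => hT.no_attr hd m z⟩
  refine ⟨⟨_, exteriorMap_of_beta hβ⟩, fun c hc => ⟨(hmem c hc).1, (hmem c hc).2,
    fun m n => growth hd hc m n⟩, ?_⟩
  rw [← hsdef] at hs ⊢
  obtain ⟨X, hX⟩ : ∃ X : ℝ, X = 2 * Real.pi * (3 * d) / Real.log 2 := ⟨_, rfl⟩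
  have hX0 : 0 < X := by rw [hX]; positivity
  obtain ⟨K₁, hK₁⟩ : ∃ K₁ : ℝ, K₁ = 16 * 8 ^ (d + 2) * C ^ 2 + 1 := ⟨_, rfl⟩
  have hK₁0 : 0 < K₁ := by rw [hK₁]; positivity
  have hK₁1 : 1 ≤ K₁ := by
    rw [hK₁]
    have : 0 ≤ 16 * 8 ^ (d + 2) * C ^ 2 := by positivity
    linarith
  obtain ⟨K, hK⟩ : ∃ K : ℝ, K = K₁ * (9 * X + 1) + 3 * d := ⟨_, rfl⟩
  have hKK₁ : K₁ ≤ K := by
    rw [hK]
    have : 0 ≤ K₁ * (9 * X) := by positivity
    nlinarith
  have hK0 : 0 < K := by linarith
  have hK3 : 3 * (d : ℝ) ≤ K := by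
    rw [hK]
    have : 0 ≤ K₁ * (9 * X + 1) := by positivity
    linarith
  have e38 : (3 : ℝ) ^ d ≤ 8 ^ (d + 2) := by
    calc (3 : ℝ) ^ d ≤ 8 ^ d := pow_le_pow_left₀ (by norm_num) (by norm_num) d
      _ ≤ 8 ^ (d + 2) := pow_le_pow_right₀ (by norm_num) (by omega)
  -- the square of `N Φ`
  have hsq : ∀ n : ℕ, 1 ≤ n → ((n : ℝ) * (C * (n : ℝ) ^ s)) ^ 2 = C ^ 2 * (n : ℝ) ^ (2 * s + 2) := by
    intro n hn
    have hn0 : (0 : ℝ) < n := by exact_mod_cast hn
    have e2 : (n : ℝ) ^ (2 * s + 2) = ((n : ℝ) ^ s * (n : ℝ)) ^ 2 := by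
      rw [← Real.rpow_natCast, ← Real.rpow_add_one hn0.ne', ← Real.rpow_mul hn0.le]
      congr 1
      push_cast
      ring
    rw [e2]
    ring
  refine ⟨K, hK0, ?_, ?_⟩
  · intro ψ hψ N hN
    have hN0 : (0 : ℝ) < N := by exact_mod_cast hN
    have hN1 : (1 : ℝ) ≤ N := by exact_mod_cast hN
    obtain ⟨Y, hY⟩ : ∃ Y, Y = (N : ℝ) ^ (2 * s + 2) := ⟨_, rfl⟩
    have hY1 : 1 ≤ Y := by rw [hY]; exact Real.one_le_rpow hN1 (by linarith)
    have hY0 : 0 < Y := by linarith
    rw [← hY]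
    obtain ⟨r, hr⟩ : ∃ r, r = 1 / (K₁ * Y) := ⟨_, rfl⟩
    have hr0 : 0 < r := by rw [hr]; positivity
    have hrle : 1 / (K * Y) ≤ r := by
      rw [hr]
      exact one_div_le_one_div_of_le (by positivity) (by gcongr)
    have hrK : r * (K₁ * Y) = 1 := by
      rw [hr]
      field_simp
    have hdN : (0 : ℝ) < (d : ℝ) ^ N := by positivity
    -- the condition
    have hcond : 16 * 3 ^ d * r * (N * (C * (N : ℝ) ^ s)) ^ 2 ≤ 1 := by
      rw [hsq N hN, ← hY]
      have h1 : 16 * 3 ^ d * C ^ 2 ≤ K₁ := by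
        calc 16 * 3 ^ d * C ^ 2 ≤ 16 * 8 ^ (d + 2) * C ^ 2 := by gcongr
          _ ≤ K₁ := by rw [hK₁]; linarith
      calc 16 * 3 ^ d * r * (C ^ 2 * Y) = r * ((16 * 3 ^ d * C ^ 2) * Y) := by ring
        _ ≤ r * (K₁ * Y) := by gcongr
        _ = 1 := hrK
    have hbd : ∀ c ∈ realSet d B, Pool.Agent.U256.GD.Bd d (c : ℂ) N (C * (N : ℝ) ^ s) := by
      intro c hc
      rw [hCdef, hsdef]
      exact bd hd hc hN
    constructor
    · -- the covering
      obtain ⟨M, hM⟩ : ∃ M : ℤ, M = ⌈2 / r⌉ + 1 := ⟨_, rfl⟩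
      have hcb : ∀ c ∈ realSet d B, |c| ≤ 2 := by
        intro c hc
        have h1 := (Pool.Agent.H712R2.mem_multibrot_iff hd (c : ℂ)).1 (hmem c hc).1 1
        have h0 : Pool.Agent.H712R2.P d 1 (c : ℂ) = c := by
          rw [Pool.Agent.H712R2.P_one]
          omega
        rw [h0, Complex.norm_real, Real.norm_eq_abs] at h1
        exact h1
      classical
      obtain ⟨ch, hch⟩ : ∃ ch : ℤ → ℝ, ∀ j, (∃ c ∈ realSet d B, ⌊c / r⌋ = j) →
          ch j ∈ realSet d B ∧ ⌊ch j / r⌋ = j :=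
        ⟨fun j => if h : ∃ c ∈ realSet d B, ⌊c / r⌋ = j then h.choose else 0, fun j hj => by
          simp only [dif_pos hj]
          exact hj.choose_spec⟩
      obtain ⟨S, hS⟩ : ∃ S : Finset ℤ, S = (Finset.Icc (-M) M).filter
        (fun j => ∃ c ∈ realSet d B, ⌊c / r⌋ = j) := ⟨_, rfl⟩
      have hsub : angles d B ψ r ⊆ ⋃ j ∈ S, Pool.Agent.Y736.HD.Ang ψ (ch j : ℂ) (2 * r) := by
        rintro t ⟨ht, c, hc, ζ, hζ, hlim⟩
        obtain ⟨j, hj⟩ : ∃ j, j = ⌊c / r⌋ := ⟨_, rfl⟩
        have hex : ∃ c ∈ realSet d B, ⌊c / r⌋ = j := ⟨c, hc, hj.symm⟩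
        obtain ⟨h1, h2⟩ := hch j hex
        have hjS : j ∈ S := by
          rw [hS, Finset.mem_filter, Finset.mem_Icc]
          refine ⟨?_, hex⟩
          have h3 := abs_le.1 (hcb c hc)
          have h4 : (j : ℝ) ≤ c / r := by rw [hj]; exact Int.floor_le _
          have h5 : c / r < j + 1 := by rw [hj]; exact Int.lt_floor_add_one _
          have h6 : c / r ≤ 2 / r := div_le_div_of_nonneg_right h3.2 hr0.le
          have h7 : -(2 / r) ≤ c / r := by
            rw [← neg_div]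
            exact div_le_div_of_nonneg_right h3.1 hr0.le
          have h8 : 2 / r ≤ ⌈2 / r⌉ := Int.le_ceil _
          have hMR : (M : ℝ) = ⌈2 / r⌉ + 1 := by rw [hM]; push_cast; ring
          constructor
          · have h9 : ((-M : ℤ) : ℝ) < ((j + 1 : ℤ) : ℝ) := by
              push_cast
              rw [hMR]
              linarith
            have := Int.cast_lt.1 h9
            omega
          · have h9 : (j : ℝ) ≤ (M : ℝ) := by
              rw [hMR]
              linarith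
            exact_mod_cast h9
        rw [mem_iUnion₂]
        refine ⟨j, hjS, ht, ζ, ?_, hlim⟩
        have h3 : |c - ch j| < r := by
          have a1 : (j : ℝ) ≤ c / r := by rw [hj]; exact Int.floor_le _
          have a2 : c / r < j + 1 := by rw [hj]; exact Int.lt_floor_add_one _
          have a3 : (j : ℝ) ≤ ch j / r := by
            have := Int.floor_le (ch j / r)
            rwa [h2] at this
          have a4 : ch j / r < j + 1 := by
            have := Int.lt_floor_add_one (ch j / r)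
            rwa [h2] at this
          rw [le_div_iff₀ hr0] at a1 a3
          rw [div_lt_iff₀ hr0] at a2 a4
          rw [abs_lt]
          constructor <;> nlinarith
        rw [mem_ball, dist_eq_norm] at hζ ⊢
        have h4 : ζ - (ch j : ℂ) = (ζ - c) + ((c - ch j : ℝ) : ℂ) := by
          push_cast
          ring
        rw [h4]
        refine (norm_add_le _ _).trans_lt ?_
        rw [Complex.norm_real, Real.norm_eq_abs]
        linarith
      have hx : ∀ j ∈ S, volume (Pool.Agent.Y736.HD.Ang ψ (ch j : ℂ) (2 * r)) ≤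
          ENNReal.ofReal (X / (d : ℝ) ^ N) := by
        intro j hj
        rw [hS, Finset.mem_filter] at hj
        obtain ⟨h1, -⟩ := hch j hj.2
        have h2 := Pool.Agent.U256.GD.vol_phi hd (hmem _ h1).1 hN (hbd _ h1) hψ
          (r := 2 * r) (by positivity) (by
            calc 8 * 3 ^ d * (2 * r) * (N * (C * (N : ℝ) ^ s)) ^ 2 =
                16 * 3 ^ d * r * (N * (C * (N : ℝ) ^ s)) ^ 2 := by ring
              _ ≤ 1 := hcond)
        have h3 : 2 * Real.pi * (3 * d / (d : ℝ) ^ N) / Real.log 2 = X / (d : ℝ) ^ N := by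
          rw [hX]
          ring
        rw [h3] at h2
        rw [← ENNReal.ofReal_toReal (Pool.Agent.Y736.HD.vol_Ang_ne ψ (ch j : ℂ) (2 * r))]
        exact ENNReal.ofReal_le_ofReal h2
      have hr1 : r ≤ 1 := by
        have h1 : 1 ≤ K₁ * Y := by nlinarith
        rw [hr, div_le_one (by positivity)]
        exact h1
      have hcard : (S.card : ℝ) ≤ 7 / r + 2 := by
        have h1 : S.card ≤ (Finset.Icc (-M) M).card := by
          rw [hS]
          exact Finset.card_filter_le _ _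
        rw [Int.card_Icc] at h1
        have h2 : (0 : ℝ) < 2 / r := by positivity
        have h3 : (0 : ℤ) < M := by
          rw [hM]
          have := Int.ceil_pos.2 h2
          omega
        have h4 : ((M + 1 - -M).toNat : ℝ) = 2 * M + 1 := by
          have h5 : ((M + 1 - -M).toNat : ℤ) = M + 1 - -M := Int.toNat_of_nonneg (by omega)
          have h6 : (((M + 1 - -M).toNat : ℤ) : ℝ) = ((M + 1 - -M : ℤ) : ℝ) := by rw [h5]
          push_cast at h6
          have h7 : (((M + 1 - -M).toNat : ℕ) : ℝ) = M + 1 + M := by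
            rw [← Int.cast_natCast, h5]
            push_cast
            ring
          rw [h7]
          ring
        have h5 : (S.card : ℝ) ≤ ((M + 1 - -M).toNat : ℝ) := by exact_mod_cast h1
        rw [h4] at h5
        have hMR : (M : ℝ) = ⌈2 / r⌉ + 1 := by rw [hM]; push_cast; ring
        have h8 : (⌈2 / r⌉ : ℝ) < 2 / r + 1 := Int.ceil_lt_add_one _
        have h9 : 3 ≤ 3 / r := by
          rw [le_div_iff₀ hr0]
          linarith
        have h10 : 7 / r = 2 * (2 / r) + 3 / r := by ring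
        rw [h10]
        linarith
      have hcard2 : (S.card : ℝ) ≤ 9 / r := by
        have h9 : 2 ≤ 2 / r := by
          rw [le_div_iff₀ hr0]
          linarith
        have h10 : 9 / r = 7 / r + 2 / r := by ring
        linarith
      have hx0 : 0 ≤ X / (d : ℝ) ^ N := by positivity
      have hvol : volume (angles d B ψ r) ≤ ENNReal.ofReal (S.card * (X / (d : ℝ) ^ N)) := by
        calc volume (angles d B ψ r) ≤
              volume (⋃ j ∈ S, Pool.Agent.Y736.HD.Ang ψ (ch j : ℂ) (2 * r)) := measure_mono hsub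
          _ ≤ ∑ j ∈ S, volume (Pool.Agent.Y736.HD.Ang ψ (ch j : ℂ) (2 * r)) :=
              measure_biUnion_finset_le _ _
          _ ≤ ∑ _j ∈ S, ENNReal.ofReal (X / (d : ℝ) ^ N) := Finset.sum_le_sum hx
          _ = ENNReal.ofReal (S.card * (X / (d : ℝ) ^ N)) := by
              rw [Finset.sum_const, nsmul_eq_mul, ENNReal.ofReal_mul (Nat.cast_nonneg _),
                ENNReal.ofReal_natCast]
      have hmono : angles d B ψ (1 / (K * Y)) ⊆ angles d B ψ r := by
        rintro t ⟨ht, c, hc, ζ, hζ, hlim⟩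
        exact ⟨ht, c, hc, ζ, ball_subset_ball hrle hζ, hlim⟩
      have hfin : (volume (angles d B ψ (1 / (K * Y)))).toReal ≤ S.card * (X / (d : ℝ) ^ N) :=
        ENNReal.toReal_le_of_le_ofReal (by positivity) ((measure_mono hmono).trans hvol)
      refine hfin.trans ?_
      have h1 : 9 / r = 9 * (K₁ * Y) := by
        rw [hr]
        field_simp
      rw [h1] at hcard2
      have h2 : 9 * X * K₁ ≤ K := by
        rw [hK]
        have : 0 < K₁ := hK₁0
        nlinarith
      calc S.card * (X / (d : ℝ) ^ N) ≤ 9 * (K₁ * Y) * (X / (d : ℝ) ^ N) := by gcongr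
        _ = (9 * X * K₁) * Y / (d : ℝ) ^ N := by ring
        _ ≤ K * Y / (d : ℝ) ^ N := by gcongr
    · intro c hc w hw hwr
      have h1 := Pool.Agent.U256.GD.log_le_green hd (hmem c hc).1 hN (hbd c hc) hψ hw
        (hwr.trans hrle) (by
        refine le_trans ?_ hcond
        have : 0 ≤ 3 ^ d * r * (N * (C * (N : ℝ) ^ s)) ^ 2 := by positivity
        nlinarith)
      refine h1.trans ?_
      gcongr
  · intro n hn a ha c hc
    have hn0 : (0 : ℝ) < n := by exact_mod_cast hn
    have hY0 : 0 < (n : ℝ) ^ (2 * s + 2) := by positivity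
    have hb : Pool.Agent.U256.GD.Bd d (c : ℂ) n (C * (n : ℝ) ^ s) := by
      rw [hCdef, hsdef]
      exact bd hd hc hn
    have h1 := Pool.Agent.U256.GD.repulsion hd (hmem c hc).1 hn hb
      (fun z => (hmem c hc).2 n z) (a := a) ha
    rw [hsq n hn] at h1
    rw [div_le_iff₀ (by positivity)]
    refine h1.trans ?_
    have h2 : 8 ^ (d + 2) * C ^ 2 ≤ K := by
      refine le_trans ?_ hKK₁
      rw [hK₁]
      have : 0 ≤ 8 ^ (d + 2) * C ^ 2 := by positivity
      linarith
    calc 8 ^ (d + 2) * (C ^ 2 * (n : ℝ) ^ (2 * s + 2)) * ‖a - c‖ =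
        ‖a - c‖ * ((8 ^ (d + 2) * C ^ 2) * (n : ℝ) ^ (2 * s + 2)) := by ring
      _ ≤ ‖a - c‖ * (K * (n : ℝ) ^ (2 * s + 2)) := by gcongr

end Pool.Agent.Results.MP_b511e9_an.UniformBoundedType
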